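import Mathlib

open MeasureTheory Set Metric Complex Filter Topology
open scoped Real

namespace Pool.Agent.Results.MP_2970b2_an.SecondCoefficient

/-- The class `CV(R₁, R₂)`: `f` is holomorphic, injective and convex in the open unit disc, with
`f 0 = 0` and `f' 0 = 1`; `f`, `f'`, `f''` extend continuously to the closed disc (extensions
`F₀`, `F₁`, `F₂`), the extension of `f'` has no zero on the closed disc, and the boundary
curvature `Re (1 + z f'' z / f' z) / |f' z|` lies in `[R₁, R₂]` for every `|z| = 1`. -/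
structure IsCV (R₁ R₂ : ℝ) (f : ℂ → ℂ) : Prop where
  analytic : DifferentiableOn ℂ f (ball 0 1)
  univalent : InjOn f (ball 0 1)
  map_zero : f 0 = 0
  deriv_zero : deriv f 0 = 1
  convex : Convex ℝ (f '' ball 0 1)
  regular : ∃ F₀ F₁ F₂ : ℂ → ℂ,
    ContinuousOn F₀ (closedBall 0 1) ∧ ContinuousOn F₁ (closedBall 0 1) ∧
    ContinuousOn F₂ (closedBall 0 1) ∧
    (∀ z ∈ ball (0:ℂ) 1, F₀ z = f z) ∧ (∀ z ∈ ball (0:ℂ) 1, F₁ z = deriv f z) ∧
    (∀ z ∈ ball (0:ℂ) 1, F₂ z = deriv (deriv f) z) ∧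
    (∀ z ∈ closedBall (0:ℂ) 1, F₁ z ≠ 0) ∧
    ∀ z ∈ sphere (0:ℂ) 1, R₁ ≤ (1 + z * F₂ z / F₁ z).re / ‖F₁ z‖ ∧
      (1 + z * F₂ z / F₁ z).re / ‖F₁ z‖ ≤ R₂

/-- Circle average of the squared modulus of a power series at radius `r`. -/
lemma avg_partial (c : ℕ → ℂ) (r : ℝ) (N : ℕ) :
    Real.circleAverage (fun w : ℂ => ‖∑ n ∈ Finset.range N, c n * ((r : ℂ) * w) ^ n‖ ^ 2) 0 1 =
      ∑ n ∈ Finset.range N, ‖c n * (r : ℂ) ^ n‖ ^ 2 := by
  set p : Polynomial ℂ := ∑ n ∈ Finset.range N, Polynomial.monomial n (c n * (r : ℂ) ^ n) with hp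
  have h1 := p.sum_sq_norm_coeff_eq_circleAverage
  have h2 : ∀ w : ℂ, p.eval w = ∑ n ∈ Finset.range N, c n * ((r : ℂ) * w) ^ n := by
    intro w
    rw [hp, Polynomial.eval_finsetSum]
    refine Finset.sum_congr rfl fun n _ => ?_
    rw [Polynomial.eval_monomial, mul_pow, mul_assoc]
  have hcoeff : ∀ k, p.coeff k = if k < N then c k * (r : ℂ) ^ k else 0 := by
    intro k
    rw [hp, Polynomial.finsetSum_coeff]
    simp only [Polynomial.coeff_monomial]
    rw [Finset.sum_ite_eq' (Finset.range N) k]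
    simp
  have hsub : p.support ⊆ Finset.range N := by
    intro k hk
    rw [Polynomial.mem_support_iff, hcoeff] at hk
    rw [Finset.mem_range]
    by_contra h
    simp [h] at hk
  simp only [← h2]
  rw [← h1, Finset.sum_subset hsub]
  · refine Finset.sum_congr rfl fun n hn => ?_
    rw [hcoeff, if_pos (Finset.mem_range.mp hn)]
  · intro k _ hk
    rw [Polynomial.notMem_support_iff] at hk
    rw [hk]; simp

/-- dominated convergence for circle averages of partial sums. -/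
lemma avg_tendsto (c : ℕ → ℂ) (u : ℂ → ℂ) (r : ℝ) (hr : 0 ≤ r)
    (hs : ∀ w : ℂ, ‖w‖ = 1 → HasSum (fun n => c n * ((r : ℂ) * w) ^ n) (u (r * w))) (φ : ℕ → ℕ)
    (hφ : Tendsto φ atTop atTop) :
    Tendsto (fun N => Real.circleAverage
      (fun w : ℂ => ‖∑ n ∈ Finset.range (φ N), c n * ((r : ℂ) * w) ^ n‖ ^ 2) 0 1) atTop
      (𝓝 (Real.circleAverage (fun w : ℂ => ‖u (r * w)‖ ^ 2) 0 1)) := by
  have hsum : Summable (fun n => ‖c n‖ * r ^ n) := by
    have h1 := (hs 1 (by simp)).summable.norm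
    refine h1.congr fun n => ?_
    rw [norm_mul, norm_pow, mul_one, Complex.norm_real, Real.norm_of_nonneg hr]
  unfold Real.circleAverage
  apply Tendsto.const_smul
  apply intervalIntegral.tendsto_integral_filter_of_dominated_convergence
    (fun _ => (∑' n, ‖c n‖ * r ^ n) ^ 2)
  · refine Eventually.of_forall fun N => ?_
    apply Continuous.aestronglyMeasurable
    have : Continuous (circleMap (0:ℂ) 1) := continuous_circleMap 0 1
    fun_prop
  · refine Eventually.of_forall fun N => Eventually.of_forall fun θ _ => ?_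
    rw [Real.norm_of_nonneg (by positivity)]
    refine pow_le_pow_left₀ (norm_nonneg _) ?_ 2
    calc _ ≤ ∑ n ∈ Finset.range (φ N), ‖c n * ((r : ℂ) * circleMap 0 1 θ) ^ n‖ := norm_sum_le _ _
      _ = ∑ n ∈ Finset.range (φ N), ‖c n‖ * r ^ n := by
        refine Finset.sum_congr rfl fun n _ => ?_
        rw [norm_mul, norm_pow, norm_mul, Complex.norm_real, Real.norm_of_nonneg hr]
        simp
      _ ≤ _ := hsum.sum_le_tsum _ (fun n _ => by positivity)
  · simp
  · refine Eventually.of_forall fun θ _ => ?_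
    have h2 := hs (circleMap 0 1 θ) (by simp)
    have h3 := h2.tendsto_sum_nat.comp hφ
    exact (h3.norm.pow 2)

lemma hasSum_of_eq {f g : ℕ → ℂ} {s : ℂ} (h : HasSum f s) (e : ∀ n, g n = f n) : HasSum g s := by
  rwa [show g = f from funext e]

/-- Key minimum principle. -/
lemma min_principle (h : ℂ → ℂ) (hd : DifferentiableOn ℂ h (ball 0 1)) (r m : ℝ) (hr0 : 0 < r)
    (hr1 : r < 1) (hm : ∀ z : ℂ, ‖z‖ = r → m ≤ ‖h z - z * deriv h z‖ ^ 2 - ‖deriv h z‖ ^ 2) :
    m ≤ ‖h 0‖ ^ 2 - ‖deriv h 0‖ ^ 2 := by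
  have hd' : DifferentiableOn ℂ (deriv h) (ball 0 1) := hd.deriv isOpen_ball
  set a : ℕ → ℂ := fun n => ((n.factorial : ℂ)⁻¹) * iteratedDeriv n h 0 with ha
  have hsh : ∀ z : ℂ, z ∈ ball (0:ℂ) 1 → HasSum (fun n => a n * z ^ n) (h z) := by
    intro z hz
    have := Complex.hasSum_taylorSeries_on_ball hd hz
    refine hasSum_of_eq this fun n => ?_
    simp only [ha, smul_eq_mul, sub_zero]
    ring
  have hsd : ∀ z : ℂ, z ∈ ball (0:ℂ) 1 →
      HasSum (fun n => ((n + 1 : ℕ) : ℂ) * a (n + 1) * z ^ n) (deriv h z) := by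
    intro z hz
    have := Complex.hasSum_taylorSeries_on_ball hd' hz
    refine hasSum_of_eq this fun n => ?_
    simp only [ha, smul_eq_mul, sub_zero]
    rw [iteratedDeriv_succ', Nat.factorial_succ]
    push_cast
    have h1 : (n : ℂ) + 1 ≠ 0 := by exact_mod_cast Nat.succ_ne_zero n
    have h2 : (n.factorial : ℂ) ≠ 0 := by exact_mod_cast n.factorial_ne_zero
    field_simp
  have e0 : a 0 = h 0 := by simp [ha]
  have e1 : a 1 = deriv h 0 := by simp [ha, iteratedDeriv_one]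
  clear_value a
  have hsz : ∀ z : ℂ, z ∈ ball (0:ℂ) 1 →
      HasSum (fun n : ℕ => (n : ℂ) * a n * z ^ n) (z * deriv h z) := by
    intro z hz
    rw [← hasSum_nat_add_iff' 1]
    simp only [Finset.range_one, Finset.sum_singleton, Nat.cast_zero, zero_mul, sub_zero]
    refine hasSum_of_eq ((hsd z hz).mul_left z) fun n => ?_
    push_cast
    ring
  have hsu : ∀ z : ℂ, z ∈ ball (0:ℂ) 1 →
      HasSum (fun n : ℕ => ((1 - (n : ℂ)) * a n) * z ^ n) (h z - z * deriv h z) := by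
    intro z hz
    refine hasSum_of_eq ((hsh z hz).sub (hsz z hz)) fun n => ?_
    ring
  have hball : ∀ w : ℂ, ‖w‖ = 1 → (r : ℂ) * w ∈ ball (0:ℂ) 1 := by
    intro w hw
    rw [mem_ball, dist_zero_right, norm_mul, hw, mul_one, Complex.norm_real, Real.norm_of_nonneg hr0.le]
    exact hr1
  have t1 := avg_tendsto (fun n : ℕ => (1 - (n : ℂ)) * a n) (fun z => h z - z * deriv h z) r hr0.le
    (fun w hw => hsu _ (hball w hw)) (fun N => N + 1) (tendsto_add_atTop_nat 1)
  have t2 := avg_tendsto (fun n => ((n + 1 : ℕ) : ℂ) * a (n + 1)) (fun z => deriv h z) r hr0.le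
    (fun w hw => hsd _ (hball w hw)) (fun N => N) tendsto_id
  simp only [avg_partial] at t1 t2
  have t3 := t1.sub t2
  have hle : ∀ᶠ N : ℕ in atTop,
      (∑ n ∈ Finset.range (N + 1), ‖(1 - (n : ℂ)) * a n * (r : ℂ) ^ n‖ ^ 2) -
      (∑ n ∈ Finset.range N, ‖((n + 1 : ℕ) : ℂ) * a (n + 1) * (r : ℂ) ^ n‖ ^ 2) ≤
      ‖h 0‖ ^ 2 - ‖deriv h 0‖ ^ 2 := by
    filter_upwards [eventually_ge_atTop 1] with N hN
    rw [Finset.sum_range_succ', add_sub_right_comm, ← Finset.sum_sub_distrib]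
    obtain ⟨M, rfl⟩ : ∃ M, N = M + 1 := ⟨N - 1, by omega⟩
    rw [Finset.sum_range_succ']
    have hneg : ∑ k ∈ Finset.range M,
        (‖(1 - ((k + 1 + 1 : ℕ) : ℂ)) * a (k + 1 + 1) * (r : ℂ) ^ (k + 1 + 1)‖ ^ 2 -
          ‖((k + 1 + 1 : ℕ) : ℂ) * a (k + 1 + 1) * (r : ℂ) ^ (k + 1)‖ ^ 2) ≤ 0 := by
      apply Finset.sum_nonpos
      intro k _
      have hA : ‖(1 - ((k + 1 + 1 : ℕ) : ℂ)) * a (k + 1 + 1) * (r : ℂ) ^ (k + 1 + 1)‖ ≤
          ‖((k + 1 + 1 : ℕ) : ℂ) * a (k + 1 + 1) * (r : ℂ) ^ (k + 1)‖ := by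
        rw [norm_mul, norm_mul, norm_mul, norm_mul, norm_pow, norm_pow, Complex.norm_real,
          Real.norm_of_nonneg hr0.le]
        have hB : ‖(1 - ((k + 1 + 1 : ℕ) : ℂ))‖ ≤ ‖((k + 1 + 1 : ℕ) : ℂ)‖ := by
          have : (1 - ((k + 1 + 1 : ℕ) : ℂ)) = -((k + 1 : ℕ) : ℂ) := by push_cast; ring
          rw [this, norm_neg, Complex.norm_natCast, Complex.norm_natCast]
          push_cast; linarith
        have hC : r ^ (k + 1 + 1) ≤ r ^ (k + 1) := pow_le_pow_of_le_one hr0.le hr1.le (by omega)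
        gcongr
      have := pow_le_pow_left₀ (norm_nonneg _) hA 2
      linarith
    have h0 : ‖(1 - ((0 + 1 : ℕ) : ℂ)) * a (0 + 1) * (r : ℂ) ^ (0 + 1)‖ ^ 2 -
        ‖((0 + 1 : ℕ) : ℂ) * a (0 + 1) * (r : ℂ) ^ 0‖ ^ 2 = - ‖deriv h 0‖ ^ 2 := by
      simp [e1]
    have h00 : ‖(1 - ((0 : ℕ) : ℂ)) * a 0 * (r : ℂ) ^ 0‖ ^ 2 = ‖h 0‖ ^ 2 := by
      simp [e0]
    rw [h0, h00]
    linarith
  have hfin := le_of_tendsto t3 hle
  refine le_trans ?_ hfin
  have hu : ContinuousOn (fun w : ℂ => ‖h (r * w) - r * w * deriv h (r * w)‖ ^ 2) (sphere 0 1) := by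
    intro w hw
    have hw' : ‖w‖ = 1 := by simpa using hw
    have c1 : ContinuousAt h (r * w) := (hd.differentiableAt (isOpen_ball.mem_nhds (hball w hw'))).continuousAt
    have c2 : ContinuousAt (deriv h) (r * w) := (hd'.differentiableAt (isOpen_ball.mem_nhds (hball w hw'))).continuousAt
    have c3 : ContinuousAt (fun w : ℂ => (r : ℂ) * w) w := by fun_prop
    have c4 : ContinuousAt (fun w : ℂ => h (r * w)) w := ContinuousAt.comp (f := fun w : ℂ => (r : ℂ) * w) c1 c3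
    have c5 : ContinuousAt (fun w : ℂ => deriv h (r * w)) w := ContinuousAt.comp (f := fun w : ℂ => (r : ℂ) * w) c2 c3
    exact ((c4.sub (c3.mul c5)).norm.pow 2).continuousWithinAt
  have hv : ContinuousOn (fun w : ℂ => ‖deriv h (r * w)‖ ^ 2) (sphere 0 1) := by
    intro w hw
    have hw' : ‖w‖ = 1 := by simpa using hw
    have c2 : ContinuousAt (deriv h) (r * w) := (hd'.differentiableAt (isOpen_ball.mem_nhds (hball w hw'))).continuousAt
    have c3 : ContinuousAt (fun w : ℂ => (r : ℂ) * w) w := by fun_prop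
    have c5 : ContinuousAt (fun w : ℂ => deriv h (r * w)) w := ContinuousAt.comp (f := fun w : ℂ => (r : ℂ) * w) c2 c3
    exact (c5.norm.pow 2).continuousWithinAt
  have iu : CircleIntegrable (fun w : ℂ => ‖h (r * w) - r * w * deriv h (r * w)‖ ^ 2) 0 1 :=
    ContinuousOn.circleIntegrable (by norm_num) hu
  have iv : CircleIntegrable (fun w : ℂ => ‖deriv h (r * w)‖ ^ 2) 0 1 :=
    ContinuousOn.circleIntegrable (by norm_num) hv
  rw [← Real.circleAverage_fun_sub iu iv]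
  have hconst : m = Real.circleAverage (fun _ : ℂ => m) 0 1 := (Real.circleAverage_const m 0 1).symm
  rw [hconst]
  apply Real.circleAverage_mono (circleIntegrable_const m 0 1) (iu.sub iv)
  intro w hw
  have hw' : ‖w‖ = 1 := by simpa using hw
  apply hm
  rw [norm_mul, hw', mul_one, Complex.norm_real, Real.norm_of_nonneg hr0.le]

/-- analytic `h` with `h ^ 2 * f' = 1`. -/
lemma exists_h (f : ℂ → ℂ) (hf : DifferentiableOn ℂ f (ball 0 1)) (h1 : deriv f 0 = 1)
    (hne : ∀ z ∈ ball (0:ℂ) 1, deriv f z ≠ 0) :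
    ∃ h : ℂ → ℂ, DifferentiableOn ℂ h (ball 0 1) ∧ h 0 = 1 ∧
      (∀ z ∈ ball (0:ℂ) 1, h z ^ 2 * deriv f z = 1) ∧
      (∀ z ∈ ball (0:ℂ) 1, deriv h z = -(deriv (deriv f) z / (2 * deriv f z)) * h z) := by
  have hf' : DifferentiableOn ℂ (deriv f) (ball 0 1) := hf.deriv isOpen_ball
  have hf'' : DifferentiableOn ℂ (deriv (deriv f)) (ball 0 1) := hf'.deriv isOpen_ball
  have hq : DifferentiableOn ℂ (fun z => deriv (deriv f) z / deriv f z) (ball 0 1) :=
    hf''.div hf' hne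
  obtain ⟨L, hL0, hL⟩ := (hq.isExactOn_ball).with_val_at 0 0
  have hder : ∀ z ∈ ball (0:ℂ) 1, HasDerivAt (fun z => exp (-L z / 2))
      (-(deriv (deriv f) z / (2 * deriv f z)) * exp (-L z / 2)) z := by
    intro z hz
    have := ((hL z hz).neg.div_const 2).cexp
    convert! this using 1
    simp only [Pi.neg_apply]
    ring
  have hconst : ∀ z ∈ ball (0:ℂ) 1, exp (-L z / 2) ^ 2 * deriv f z = 1 := by
    have hd : ∀ z ∈ ball (0:ℂ) 1, HasDerivAt (fun z => exp (-L z / 2) ^ 2 * deriv f z) 0 z := by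
      intro z hz
      have e1 := hder z hz
      have e2 := (hf'.differentiableAt (isOpen_ball.mem_nhds hz)).hasDerivAt
      have e3 := (e1.pow 2).mul e2
      convert! e3 using 1
      have := hne z hz
      simp only [Pi.pow_apply]
      push_cast
      field_simp
      ring
    intro z hz
    have := (convex_ball (0:ℂ) 1).is_const_of_fderivWithin_eq_zero (𝕜 := ℂ) (f := fun z => exp (-L z / 2) ^ 2 * deriv f z)
      (fun z hz => (hd z hz).differentiableAt.differentiableWithinAt)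
      (fun z hz => by
        rw [fderivWithin_of_isOpen isOpen_ball hz]
        ext
        simp [(hd z hz).hasFDerivAt.fderiv]) hz (show (0:ℂ) ∈ ball (0:ℂ) 1 by simp)
    rw [this]
    simp [hL0, h1]
  refine ⟨fun z => exp (-L z / 2), fun z hz => (hder z hz).differentiableAt.differentiableWithinAt,
    by simp [hL0], hconst, fun z hz => (hder z hz).deriv⟩

lemma kappa_identity (z h h' f1 f2 : ℂ) (hf1 : f1 ≠ 0) (e1 : h ^ 2 * f1 = 1)
    (e2 : h' = -(f2 / (2 * f1)) * h) :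
    ‖h - z * h'‖ ^ 2 - ‖h'‖ ^ 2 =
      ((1 + z * f2 / f1).re - (1 - ‖z‖ ^ 2) * ‖f2 / (2 * f1)‖ ^ 2) / ‖f1‖ := by
  set g := f2 / (2 * f1) with hg
  have hn : ‖h‖ ^ 2 = 1 / ‖f1‖ := by
    have : ‖h‖ ^ 2 * ‖f1‖ = 1 := by rw [← norm_pow, ← norm_mul, e1, norm_one]
    field_simp
    exact this
  have h3 : h - z * h' = h * (1 + z * g) := by rw [e2]; ring
  have h4 : z * f2 / f1 = 2 * (z * g) := by rw [hg]; field_simp
  rw [h3, e2, h4, norm_mul, norm_mul, norm_neg, mul_pow, mul_pow, hn]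
  have h5 : ‖1 + z * g‖ ^ 2 = 1 + 2 * (z * g).re + ‖z‖ ^ 2 * ‖g‖ ^ 2 := by
    rw [← Complex.normSq_eq_norm_sq, Complex.normSq_add, Complex.normSq_one,
      Complex.normSq_eq_norm_sq, norm_mul, mul_pow]
    simp
    ring
  rw [h5]
  have h6 : (1 + 2 * (z * g)).re = 1 + 2 * (z * g).re := by simp
  rw [h6]
  ring

/-- The main upper bound. -/
theorem upper (R₁ R₂ : ℝ) (f : ℂ → ℂ) (hf : IsCV R₁ R₂ f) :
    ‖deriv (deriv f) 0 / 2‖ ^ 2 ≤ 1 - R₁ := by
  obtain ⟨F₀, F₁, F₂, -, c1, c2, -, hF1, hF2, hne, hρ⟩ := hf.regular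
  have hne' : ∀ z ∈ ball (0:ℂ) 1, deriv f z ≠ 0 := fun z hz => by
    rw [← hF1 z hz]; exact hne z (ball_subset_closedBall hz)
  obtain ⟨h, hd, h0, hsq, hder⟩ := exists_h f hf.analytic hf.deriv_zero hne'
  set K : ℂ → ℝ := fun z => ((1 + z * F₂ z / F₁ z).re - (1 - ‖z‖ ^ 2) * ‖F₂ z / (2 * F₁ z)‖ ^ 2) / ‖F₁ z‖ with hK
  have hKc : ContinuousOn K (closedBall 0 1) := by
    have hq1 : ContinuousOn (fun z => F₂ z / (2 * F₁ z)) (closedBall 0 1) :=
      c2.div (continuousOn_const.mul c1) (fun z hz => mul_ne_zero two_ne_zero (hne z hz))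
    have hq2 : ContinuousOn (fun z => (1 + z * F₂ z / F₁ z).re) (closedBall 0 1) :=
      Complex.continuous_re.comp_continuousOn
        (continuousOn_const.add ((continuousOn_id.mul c2).div c1 hne))
    refine ContinuousOn.div ?_ c1.norm (fun z hz => norm_ne_zero_iff.mpr (hne z hz))
    exact hq2.sub ((continuousOn_const.sub (continuous_norm.continuousOn.pow 2)).mul (hq1.norm.pow 2))
  have hKin : ∀ z ∈ ball (0:ℂ) 1, K z = ‖h z - z * deriv h z‖ ^ 2 - ‖deriv h z‖ ^ 2 := by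
    intro z hz
    rw [kappa_identity z (h z) (deriv h z) (deriv f z) (deriv (deriv f) z) (hne' z hz) (hsq z hz) (hder z hz)]
    simp only [hK, hF1 z hz, hF2 z hz]
  have hKbd : ∀ z ∈ sphere (0:ℂ) 1, R₁ ≤ K z := by
    intro z hz
    have hz1 : ‖z‖ = 1 := by simpa using hz
    simp only [hK, hz1]
    simpa using (hρ z hz).1
  -- uniform continuity
  have huc : UniformContinuousOn K (closedBall 0 1) :=
    (isCompact_closedBall 0 1).uniformContinuousOn_of_continuous hKc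
  have hK0 : K 0 = 1 - ‖deriv (deriv f) 0 / 2‖ ^ 2 := by
    have h0m : (0:ℂ) ∈ ball (0:ℂ) 1 := by simp
    simp only [hK, hF1 0 h0m, hF2 0 h0m, hf.deriv_zero]
    simp
  have key : ∀ ε > 0, R₁ - ε ≤ K 0 := by
    intro ε hε
    rw [Metric.uniformContinuousOn_iff] at huc
    obtain ⟨δ, hδ, hδ'⟩ := huc ε hε
    set r : ℝ := max (1/2) (1 - δ / 2) with hr
    have hr0 : 0 < r := lt_of_lt_of_le (by norm_num) (le_max_left _ _)
    have hr1 : r < 1 := max_lt (by norm_num) (by linarith)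
    have hmain : ∀ z : ℂ, ‖z‖ = r → R₁ - ε ≤ ‖h z - z * deriv h z‖ ^ 2 - ‖deriv h z‖ ^ 2 := by
      intro z hz
      have hzb : z ∈ ball (0:ℂ) 1 := by rw [mem_ball, dist_zero_right, hz]; exact hr1
      rw [← hKin z hzb]
      have hrne : (r:ℂ) ≠ 0 := by exact_mod_cast hr0.ne'
      have hw : z / r ∈ sphere (0:ℂ) 1 := by
        rw [mem_sphere, dist_zero_right, norm_div, hz, Complex.norm_real, Real.norm_of_nonneg hr0.le, div_self hr0.ne']
      have hdist : dist (z / r) z < δ := by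
        have : z / r - z = (z / r) * (1 - r) := by field_simp
        rw [dist_eq_norm, this, norm_mul]
        have hw' : ‖z / r‖ = 1 := by simpa using hw
        rw [hw', one_mul]
        have : ‖(1 - (r:ℂ))‖ = 1 - r := by
          rw [← Complex.ofReal_one, ← Complex.ofReal_sub, Complex.norm_real, Real.norm_of_nonneg (by linarith)]
        rw [this]
        have := le_max_right (1/2) (1 - δ / 2)
        linarith
      have h1 := hδ' (z / r) (sphere_subset_closedBall hw) z (ball_subset_closedBall hzb) hdist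
      rw [Real.dist_eq, abs_lt] at h1
      have h2 := hKbd _ hw
      linarith
    have h3 := min_principle h hd r (R₁ - ε) hr0 hr1 hmain
    rw [hKin 0 (by simp)]
    simpa using h3
  have : R₁ ≤ K 0 := le_of_forall_sub_le (fun ε hε => key ε hε)
  linarith

section example_section

variable (a : ℝ)

lemma ne_zero_aux (ha0 : 0 ≤ a) (ha1 : a < 1) {z : ℂ} (hz : ‖z‖ ≤ 1) : 1 - (a:ℂ) * z ≠ 0 := by
  intro h
  have h1 : (a:ℂ) * z = 1 := by linear_combination -h
  have h2 : ‖(a:ℂ) * z‖ = 1 := by rw [h1, norm_one]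
  rw [norm_mul, Complex.norm_real, Real.norm_of_nonneg ha0] at h2
  nlinarith [norm_nonneg z]

lemma der1 {z : ℂ} (hz : 1 - (a:ℂ) * z ≠ 0) :
    HasDerivAt (fun z : ℂ => z / (1 - a * z)) (1 / (1 - a * z) ^ 2) z := by
  have h1 : HasDerivAt (fun z : ℂ => 1 - (a:ℂ) * z) (-(a:ℂ)) z := by
    simpa using ((hasDerivAt_id z).const_mul (a:ℂ)).const_sub 1
  have h2 := (hasDerivAt_id z).div h1 hz
  convert! h2 using 1
  simp only [id]
  congr 1
  ring

lemma der2 {z : ℂ} (hz : 1 - (a:ℂ) * z ≠ 0) :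
    HasDerivAt (fun z : ℂ => 1 / (1 - (a:ℂ) * z) ^ 2) (2 * a / (1 - a * z) ^ 3) z := by
  have h1 : HasDerivAt (fun z : ℂ => 1 - (a:ℂ) * z) (-(a:ℂ)) z := by
    simpa using ((hasDerivAt_id z).const_mul (a:ℂ)).const_sub 1
  have h2 := (hasDerivAt_const z (1:ℂ)).div (h1.pow 2) (pow_ne_zero 2 hz)
  convert! h2 using 1
  simp only [Pi.pow_apply]
  push_cast
  field_simp
  ring

lemma deriv_eq (ha0 : 0 ≤ a) (ha1 : a < 1) {z : ℂ} (hz : ‖z‖ ≤ 1) :
    deriv (fun z : ℂ => z / (1 - a * z)) z = 1 / (1 - a * z) ^ 2 :=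
  (der1 a (ne_zero_aux a ha0 ha1 hz)).deriv

lemma deriv2_eq (ha0 : 0 ≤ a) (ha1 : a < 1) {z : ℂ} (hz : ‖z‖ ≤ 1) :
    deriv (deriv (fun z : ℂ => z / (1 - a * z))) z = 2 * a / (1 - a * z) ^ 3 := by
  have hne := ne_zero_aux a ha0 ha1 hz
  have hev : deriv (fun z : ℂ => z / (1 - a * z)) =ᶠ[𝓝 z] fun z => 1 / (1 - a * z) ^ 2 := by
    have hc : ContinuousAt (fun w : ℂ => 1 - (a:ℂ) * w) z := by fun_prop
    have : ∀ᶠ w in 𝓝 z, 1 - (a:ℂ) * w ≠ 0 := hc.eventually_ne hne
    filter_upwards [this] with w hw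
    exact (der1 a hw).deriv
  rw [hev.deriv_eq]
  exact (der2 a hne).deriv

lemma image_eq (ha0 : 0 ≤ a) (ha1 : a < 1) :
    (fun z : ℂ => z / (1 - a * z)) '' ball 0 1 = ball ((a / (1 - a ^ 2) : ℝ) : ℂ) (1 / (1 - a ^ 2)) := by
  have h1a : 0 < 1 - a ^ 2 := by nlinarith
  have step : ∀ w : ℂ, w ∈ ball ((a / (1 - a ^ 2) : ℝ) : ℂ) (1 / (1 - a ^ 2)) ↔ ‖w‖ < ‖1 + a * w‖ := by
    intro w
    rw [mem_ball, dist_eq_norm, ← sq_lt_sq₀ (norm_nonneg _) (by positivity),
      ← sq_lt_sq₀ (norm_nonneg w) (norm_nonneg _)]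
    rw [← Complex.normSq_eq_norm_sq, ← Complex.normSq_eq_norm_sq, ← Complex.normSq_eq_norm_sq]
    simp only [Complex.normSq_apply, Complex.sub_re, Complex.sub_im, Complex.ofReal_re, Complex.ofReal_im,
      Complex.add_re, Complex.add_im, Complex.one_re, Complex.one_im, Complex.mul_re, Complex.mul_im]
    have e1 : (w.re - a / (1 - a ^ 2)) * (w.re - a / (1 - a ^ 2)) + (w.im - 0) * (w.im - 0) - (1 / (1 - a ^ 2)) ^ 2
      = (w.re * w.re + w.im * w.im - ((1 + (a * w.re - 0 * w.im)) * (1 + (a * w.re - 0 * w.im)) +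
        (0 + (a * w.im + 0 * w.re)) * (0 + (a * w.im + 0 * w.re)))) / (1 - a ^ 2) := by
      field_simp
      ring
    constructor
    · intro h
      have h2 : (w.re * w.re + w.im * w.im - ((1 + (a * w.re - 0 * w.im)) * (1 + (a * w.re - 0 * w.im)) +
        (0 + (a * w.im + 0 * w.re)) * (0 + (a * w.im + 0 * w.re)))) / (1 - a ^ 2) < 0 := by
        rw [← e1]; linarith
      rw [div_lt_iff₀ h1a] at h2
      linarith
    · intro h
      have h2 : (w.re * w.re + w.im * w.im - ((1 + (a * w.re - 0 * w.im)) * (1 + (a * w.re - 0 * w.im)) +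
        (0 + (a * w.im + 0 * w.re)) * (0 + (a * w.im + 0 * w.re)))) / (1 - a ^ 2) < 0 := by
        rw [div_lt_iff₀ h1a]; linarith
      rw [← e1] at h2
      linarith
  ext w
  rw [step]
  constructor
  · rintro ⟨z, hz, rfl⟩
    have hz1 : ‖z‖ < 1 := by simpa using hz
    have hne := ne_zero_aux a ha0 ha1 hz1.le
    have : (1:ℂ) + a * (z / (1 - a * z)) = 1 / (1 - a * z) := by field_simp; ring
    simp only
    rw [this, norm_div, norm_div, norm_one]
    have : 0 < ‖1 - (a:ℂ) * z‖ := norm_pos_iff.mpr hne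
    gcongr
  · intro hw
    have hpos : 0 < ‖1 + (a:ℂ) * w‖ := lt_of_le_of_lt (norm_nonneg _) hw
    have hne : 1 + (a:ℂ) * w ≠ 0 := norm_pos_iff.mp hpos
    refine ⟨w / (1 + a * w), ?_, ?_⟩
    · rw [mem_ball, dist_zero_right, norm_div, div_lt_one hpos]
      exact hw
    · simp only
      have : (1:ℂ) - a * (w / (1 + a * w)) = 1 / (1 + a * w) := by field_simp; ring
      rw [this, div_div_eq_mul_div, div_one]
      exact div_mul_cancel₀ w hne

lemma isCV_example (R₁ R₂ : ℝ) (ha0 : 0 ≤ a) (ha1 : a < 1) (h1 : R₁ ≤ 1 - a ^ 2) (h2 : 1 - a ^ 2 ≤ R₂) :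
    IsCV R₁ R₂ (fun z : ℂ => z / (1 - a * z)) where
  analytic := fun z hz => (der1 a (ne_zero_aux a ha0 ha1 (by
    have : ‖z‖ < 1 := by simpa using hz
    exact this.le))).differentiableAt.differentiableWithinAt
  univalent := by
    intro z hz w hw h
    have hz1 : ‖z‖ < 1 := by simpa using hz
    have hw1 : ‖w‖ < 1 := by simpa using hw
    have hne1 := ne_zero_aux a ha0 ha1 hz1.le
    have hne2 := ne_zero_aux a ha0 ha1 hw1.le
    simp only at h
    rw [div_eq_div_iff hne1 hne2] at h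
    linear_combination h
  map_zero := by simp
  deriv_zero := by rw [deriv_eq a ha0 ha1 (by simp)]; simp
  convex := by rw [image_eq a ha0 ha1]; exact convex_ball _ _
  regular := by
    have hne : ∀ z ∈ closedBall (0:ℂ) 1, 1 - (a:ℂ) * z ≠ 0 := fun z hz =>
      ne_zero_aux a ha0 ha1 (by simpa using hz)
    refine ⟨fun z => z / (1 - a * z), fun z => 1 / (1 - a * z) ^ 2, fun z => 2 * a / (1 - a * z) ^ 3,
      ?_, ?_, ?_, fun z _ => rfl, ?_, ?_, ?_, ?_⟩
    · exact continuousOn_id.div (by fun_prop) hne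
    · exact continuousOn_const.div (by fun_prop) (fun z hz => pow_ne_zero 2 (hne z hz))
    · exact continuousOn_const.div (by fun_prop) (fun z hz => pow_ne_zero 3 (hne z hz))
    · intro z hz
      exact (deriv_eq a ha0 ha1 (by have : ‖z‖ < 1 := by simpa using hz
                                    exact this.le)).symm
    · intro z hz
      exact (deriv2_eq a ha0 ha1 (by have : ‖z‖ < 1 := by simpa using hz
                                     exact this.le)).symm
    · intro z hz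
      exact one_div_ne_zero (pow_ne_zero 2 (hne z hz))
    · intro z hz
      have hz1 : ‖z‖ = 1 := by simpa using hz
      have hn := hne z (sphere_subset_closedBall hz)
      have e : (1 + z * (2 * a / (1 - a * z) ^ 3) / (1 / (1 - a * z) ^ 2) : ℂ).re / ‖(1 / (1 - a * z) ^ 2 : ℂ)‖
          = 1 - a ^ 2 := by
        have e1 : (1 + z * (2 * a / (1 - a * z) ^ 3) / (1 / (1 - a * z) ^ 2) : ℂ) = (1 + a * z) / (1 - a * z) := by
          set t := 1 - (a:ℂ) * z with ht
          have ht' : (a:ℂ) * z = 1 - t := by rw [ht]; ring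
          have : z * (2 * a / t ^ 3) / (1 / t ^ 2) = 2 * (a * z) / t := by field_simp
          rw [this, ht']
          field_simp
          ring
        have e2 : (1 + a * z : ℂ) / (1 - a * z) = ((1 + a * z) * (starRingEnd ℂ) (1 - a * z)) / ((‖1 - (a:ℂ) * z‖ ^ 2 : ℝ) : ℂ) := by
          rw [← Complex.normSq_eq_norm_sq, ← Complex.mul_conj]
          have : (starRingEnd ℂ) (1 - a * z) ≠ 0 := by
            rw [Ne, map_eq_zero]; exact hn
          field_simp
        have hz2 : z.re * z.re + z.im * z.im = 1 := by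
          have : Complex.normSq z = 1 := by rw [Complex.normSq_eq_norm_sq, hz1]; norm_num
          rw [← Complex.normSq_apply]; exact this
        have hpos : 0 < ‖1 - (a:ℂ) * z‖ := norm_pos_iff.mpr hn
        rw [e1, e2, Complex.div_ofReal_re, norm_div, norm_one, norm_pow]
        have e3 : ((1 + a * z) * (starRingEnd ℂ) (1 - a * z) : ℂ).re = 1 - a ^ 2 := by
          simp only [map_sub, map_one, map_mul, Complex.conj_ofReal, Complex.mul_re, Complex.add_re, Complex.one_re,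
            Complex.ofReal_re, Complex.ofReal_im, Complex.sub_re, Complex.conj_re, Complex.conj_im, Complex.add_im,
            Complex.one_im, Complex.mul_im, Complex.sub_im]
          linear_combination (-a ^ 2) * hz2
        rw [e3]
        field_simp
      rw [e]
      exact ⟨h1, h2⟩

lemma a2_example (ha0 : 0 ≤ a) (ha1 : a < 1) :
    ‖deriv (deriv (fun z : ℂ => z / (1 - a * z))) 0 / 2‖ = a := by
  rw [deriv2_eq a ha0 ha1 (by simp)]
  simp [abs_of_nonneg ha0]

end example_section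

lemma R₂_pos {R₂ : ℝ} {f : ℂ → ℂ} (hf : IsCV 0 R₂ f) : 0 < R₂ := by
  by_contra hR
  push Not at hR
  obtain ⟨F₀, F₁, F₂, -, c1, c2, -, hF1, hF2, hne, hρ⟩ := hf.regular
  have hz0 : ∀ z ∈ sphere (0:ℂ) 1, (1 + z * F₂ z / F₁ z).re = 0 := by
    intro z hz
    have hpos : 0 < ‖F₁ z‖ := norm_pos_iff.mpr (hne z (sphere_subset_closedBall hz))
    obtain ⟨h1, h2⟩ := hρ z hz
    have h3 : (1 + z * F₂ z / F₁ z).re / ‖F₁ z‖ = 0 := le_antisymm (h2.trans hR) h1
    rcases div_eq_zero_iff.mp h3 with h | h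
    · exact h
    · exact absurd h hpos.ne'
  have hd : DifferentiableOn ℂ (deriv f) (ball 0 1) := hf.analytic.deriv isOpen_ball
  have hd2 : DifferentiableOn ℂ (deriv (deriv f)) (ball 0 1) := hd.deriv isOpen_ball
  have hG : DiffContOnCl ℂ (fun z => exp (1 + z * F₂ z / F₁ z)) (ball 0 1) := by
    refine ⟨?_, ?_⟩
    · have h1 : DifferentiableOn ℂ (fun z => exp (1 + z * deriv (deriv f) z / deriv f z)) (ball 0 1) := by
        apply DifferentiableOn.cexp
        apply DifferentiableOn.const_add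
        apply DifferentiableOn.div (differentiableOn_id.mul hd2) hd
        intro z hz
        rw [← hF1 z hz]; exact hne z (ball_subset_closedBall hz)
      refine h1.congr fun z hz => ?_
      rw [hF1 z hz, hF2 z hz]
    · rw [closure_ball _ one_ne_zero]
      apply ContinuousOn.cexp
      exact continuousOn_const.add ((continuousOn_id.mul c2).div c1 hne)
  have h := Complex.norm_le_of_forall_mem_frontier_norm_le (U := ball (0:ℂ) 1) isBounded_ball hG (C := 1)
    (by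
      intro z hz
      rw [frontier_ball _ one_ne_zero] at hz
      rw [Complex.norm_exp, hz0 z hz, Real.exp_zero]) (z := 0) (subset_closure (by simp))
  rw [Complex.norm_exp] at h
  simp at h
  linarith [Real.exp_one_gt_two]

/-- The second Taylor coefficient `a₂ = f'' 0 / 2`. -/
noncomputable def a₂ (f : ℂ → ℂ) : ℂ := deriv (deriv f) 0 / 2

/-- For `0 ≤ R₁ ≤ R₂` the class `CV(R₁, R₂)` is nonempty exactly when `R₁ ≤ 1` and `0 < R₂`, and
then the supremum of `|a₂|` over it is `√(1 - R₁)`. -/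
theorem result (R₁ R₂ : ℝ) (h0 : 0 ≤ R₁) (h12 : R₁ ≤ R₂) :
    ((∃ f, IsCV R₁ R₂ f) ↔ R₁ ≤ 1 ∧ 0 < R₂) ∧
    ((∃ f, IsCV R₁ R₂ f) →
      IsLUB {x : ℝ | ∃ f, IsCV R₁ R₂ f ∧ x = ‖a₂ f‖} (Real.sqrt (1 - R₁))) := by
  simp only [a₂]
  have hex : ∀ c : ℝ, 0 < c → c ≤ 1 → R₁ ≤ c → c ≤ R₂ →
      IsCV R₁ R₂ (fun z : ℂ => z / (1 - (Real.sqrt (1 - c) : ℝ) * z)) ∧
      ‖deriv (deriv (fun z : ℂ => z / (1 - (Real.sqrt (1 - c) : ℝ) * z))) 0 / 2‖ = Real.sqrt (1 - c) := by
    intro c hc hc1 hc2 hc3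
    have hs0 : 0 ≤ Real.sqrt (1 - c) := Real.sqrt_nonneg _
    have hs1 : Real.sqrt (1 - c) < 1 := by
      rw [Real.sqrt_lt' one_pos]; linarith
    have hsq : Real.sqrt (1 - c) ^ 2 = 1 - c := Real.sq_sqrt (by linarith)
    exact ⟨isCV_example _ R₁ R₂ hs0 hs1 (by rw [hsq]; linarith) (by rw [hsq]; linarith), a2_example _ hs0 hs1⟩
  have hiff : (∃ f, IsCV R₁ R₂ f) ↔ R₁ ≤ 1 ∧ 0 < R₂ := by
    constructor
    · rintro ⟨f, hf⟩
      have hu := upper R₁ R₂ f hf
      refine ⟨by nlinarith [sq_nonneg ‖deriv (deriv f) 0 / 2‖], ?_⟩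
      rcases h0.eq_or_lt with h | h
      · subst h
        exact R₂_pos hf
      · linarith
    · rintro ⟨h1, h2⟩
      exact ⟨_, (hex (min R₂ 1) (lt_min h2 one_pos) (min_le_right _ _) (le_min h12 h1) (min_le_left _ _)).1⟩
  refine ⟨hiff, fun hne => ?_⟩
  obtain ⟨h1, h2⟩ := hiff.mp hne
  constructor
  · rintro x ⟨f, hf, rfl⟩
    exact Real.le_sqrt_of_sq_le (upper R₁ R₂ f hf)
  · intro b hb
    rcases h0.eq_or_lt with h | h
    · subst h
      -- let c tend to zero
      have hb' : ∀ c : ℝ, 0 < c → c ≤ min R₂ 1 → Real.sqrt (1 - c) ≤ b := by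
        intro c hc hc'
        obtain ⟨e1, e2⟩ := hex c hc (hc'.trans (min_le_right _ _)) hc.le (hc'.trans (min_le_left _ _))
        exact hb ⟨_, e1, e2.symm⟩
      have ht : Tendsto (fun c : ℝ => Real.sqrt (1 - c)) (𝓝[>] 0) (𝓝 (Real.sqrt (1 - 0))) := by
        apply Tendsto.mono_left _ nhdsWithin_le_nhds
        apply Continuous.tendsto
        fun_prop
      refine le_of_tendsto ht ?_
      have hmin : 0 < min R₂ 1 := lt_min h2 one_pos
      filter_upwards [Ioc_mem_nhdsGT hmin] with c hc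
      exact hb' c hc.1 hc.2
    · obtain ⟨e1, e2⟩ := hex R₁ h h1 le_rfl h12
      exact hb ⟨_, e1, e2.symm⟩

end Pool.Agent.Results.MP_2970b2_an.SecondCoefficient
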